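import Pool.Agent.H46.S.Class

/-!
# The numerical data of the Iitaka fibration of Kodaira dimension two are contradictory
-/

namespace Pool.Agent.H46.S

/-- HODGE INDEX: the positive part `P` is a positive multiple of `l`, so by `gm` it has two sections,
against `iitaka`. -/
theorem Fib.false (f : Fib) : False := by
  have hHl0 : 0 ≤ f.b f.H f.l := f.nef_nef _ f.H_nef _ f.l_nef
  have hHl : 0 < f.b f.H f.l := by
    rcases hHl0.lt_or_eq with h | h
    · exact h
    · have h1 := f.hodge f.l h.symm f.l_ne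
      rw [f.l_sq] at h1
      exact absurd h1 (lt_irrefl _)
  -- `l . E = 0`
  have hE1 := f.nef_eff _ f.l_nef _ f.E_eff
  have hE2 := f.nef_eff _ f.l_nef _ f.C_eff
  rw [map_sub, map_smul, f.l_sq, smul_zero, zero_sub] at hE2
  have hE : f.b f.l f.E = 0 := by linarith
  -- `l . P = 0`
  have h1 := congrArg (f.b f.l) f.eq
  rw [map_add, map_smul, f.l_sq, smul_zero, zero_add, hE, map_add] at h1
  have hP1 := f.nef_nef _ f.l_nef _ f.P_nef
  have hG1 := f.nef_eff _ f.l_nef _ f.G_eff
  have hlP : f.b f.l f.P = 0 := by linarith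
  -- `H . P > 0`
  have hn := f.nef_eff _ f.H_nef _ f.neg
  rw [map_sub, map_smul, smul_eq_mul] at hn
  have hHP : 0 < f.b f.H f.P := by
    have := mul_pos f.c_pos hHl
    linarith
  have hPP := f.nef_nef _ f.P_nef _ f.P_nef
  set t : ℝ := f.b f.H f.P / f.b f.H f.l with ht
  have htpos : 0 < t := div_pos hHP hHl
  have hPt : f.P = t • f.l := by
    by_contra hne
    have hx0 : f.P - t • f.l ≠ 0 := sub_ne_zero.2 hne
    have hHx : f.b f.H (f.P - t • f.l) = 0 := by
      rw [map_sub, map_smul, smul_eq_mul, ht, div_mul_cancel₀ _ hHl.ne', sub_self]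
    have h2 := f.hodge _ hHx hx0
    have h3 : f.b (f.P - t • f.l) (f.P - t • f.l) = f.b f.P f.P := by
      simp only [map_sub, map_smul, LinearMap.sub_apply, LinearMap.smul_apply, smul_eq_mul,
        f.l_sq, hlP, f.b_symm f.P f.l]
      ring
    rw [h3] at h2
    exact absurd hPP (not_le.2 h2)
  obtain ⟨k, hk⟩ := f.gm t htpos hPt
  have := f.iitaka k
  omega

end Pool.Agent.H46.S
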